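import Pool.Agent.Helper55.FR.GoalsB

/-!
# Packet FR-CON: counting rooted sets
-/

namespace Pool.Agent.Helper40.FR

open Finset Pool.Agent.Helper55.FR

open Classical in
theorem gen {V : Type} [Fintype V] (r : V → V → Prop) (Δ : ℕ) (u : ℝ)
    (hs : ∀ x y, r x y → r y x) (hu : 0 ≤ u) (hΔ : (1 + 2 * u) ^ Δ ≤ 2)
    (hd : ∀ x, (univ.filter fun y => r x y).card ≤ Δ) :
    ∀ X Z : Finset V, Z ⊆ X →
      ∑ Y ∈ X.powerset.filter (fun Y => Rooted r Z Y), u ^ Y.card ≤ (1 + 2 * u) ^ Z.card := by
  intro X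
  induction X using Finset.strongInduction with
  | H X ih =>
    intro Z hZ
    have h1 : (1 : ℝ) ≤ 1 + 2 * u := by linarith
    rcases Z.eq_empty_or_nonempty with hZe | ⟨z, hz⟩
    · subst hZe
      have hsub : X.powerset.filter (fun Y => Rooted r ∅ Y) ⊆ {∅} := by
        intro Y hY
        rw [mem_filter] at hY
        rw [mem_singleton]
        by_contra hne
        obtain ⟨w, _, hw⟩ := hY.2 Y (Subset.refl _) (nonempty_iff_ne_empty.2 hne)
          (fun x _ y hy _ => hy)
        simp at hw
      calc ∑ Y ∈ X.powerset.filter (fun Y => Rooted r ∅ Y), u ^ Y.card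
          ≤ ∑ Y ∈ ({∅} : Finset (Finset V)), u ^ Y.card :=
            sum_le_sum_of_subset_of_nonneg hsub (fun Y _ _ => pow_nonneg hu _)
        _ = 1 := by simp
        _ ≤ (1 + 2 * u) ^ (∅ : Finset V).card := by simp
    · have hzX : z ∈ X := hZ hz
      have hlt : X.erase z ⊂ X := erase_ssubset hzX
      have hsplit := sum_filter_add_sum_filter_not
        (X.powerset.filter (fun Y => Rooted r Z Y)) (fun Y => z ∈ Y) (fun Y => u ^ Y.card)
      rw [← hsplit]
      -- sets without z
      have hB : ∑ Y ∈ (X.powerset.filter (fun Y => Rooted r Z Y)).filter (fun Y => ¬ z ∈ Y),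
          u ^ Y.card ≤ (1 + 2 * u) ^ (Z.erase z).card := by
        refine le_trans (sum_le_sum_of_subset_of_nonneg ?_ (fun Y _ _ => pow_nonneg hu _))
          (ih (X.erase z) hlt (Z.erase z) (erase_subset_erase z hZ))
        intro Y hY
        rw [mem_filter, mem_filter, mem_powerset] at hY
        rw [mem_filter, mem_powerset]
        obtain ⟨⟨hYX, hr⟩, hzY⟩ := hY
        refine ⟨fun x hx => mem_erase.2 ⟨fun h => hzY (h ▸ hx), hYX hx⟩, ?_⟩
        intro S hS hne hcl
        obtain ⟨w, hwS, hwZ⟩ := hr S hS hne hcl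
        exact ⟨w, hwS, mem_erase.2 ⟨fun h => hzY (h ▸ hS hwS), hwZ⟩⟩
      -- sets with z
      set Z' : Finset V := (Z.erase z) ∪ (X.erase z).filter (fun x => r z x) with hZ'
      have hZ'X : Z' ⊆ X.erase z :=
        union_subset (erase_subset_erase z hZ) (filter_subset _ _)
      have hZ'c : Z'.card ≤ (Z.erase z).card + Δ := by
        refine le_trans (card_union_le _ _) (Nat.add_le_add_left ?_ _)
        refine le_trans (card_le_card ?_) (hd z)
        intro x hx
        rw [mem_filter] at hx ⊢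
        exact ⟨mem_univ _, hx.2⟩
      have hA : ∑ Y ∈ (X.powerset.filter (fun Y => Rooted r Z Y)).filter (fun Y => z ∈ Y),
          u ^ Y.card ≤ u * (1 + 2 * u) ^ Z'.card := by
        have hinj : Set.InjOn (fun Y : Finset V => Y.erase z)
            (((X.powerset.filter (fun Y => Rooted r Z Y)).filter (fun Y => z ∈ Y) :
              Finset (Finset V)) : Set (Finset V)) := by
          intro Y1 h1 Y2 h2 he
          have h1' := (mem_filter.1 (mem_coe.1 h1)).2
          have h2' := (mem_filter.1 (mem_coe.1 h2)).2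
          have he' : Y1.erase z = Y2.erase z := he
          rw [← insert_erase h1', ← insert_erase h2', he']
        have e1 : ∑ Y ∈ (X.powerset.filter (fun Y => Rooted r Z Y)).filter (fun Y => z ∈ Y),
            u ^ Y.card = u * ∑ Y ∈ ((X.powerset.filter (fun Y => Rooted r Z Y)).filter
              (fun Y => z ∈ Y)).image (fun Y => Y.erase z), u ^ Y.card := by
          rw [sum_image hinj, mul_sum]
          refine sum_congr rfl fun Y hY => ?_
          have hzY := (mem_filter.1 hY).2
          rw [← pow_succ', card_erase_add_one hzY]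
        rw [e1]
        refine mul_le_mul_of_nonneg_left ?_ hu
        refine le_trans (sum_le_sum_of_subset_of_nonneg ?_ (fun Y _ _ => pow_nonneg hu _))
          (ih (X.erase z) hlt Z' hZ'X)
        intro Y' hY'
        rw [mem_image] at hY'
        obtain ⟨Y, hY, rfl⟩ := hY'
        rw [mem_filter, mem_filter, mem_powerset] at hY
        obtain ⟨⟨hYX, hr⟩, hzY⟩ := hY
        rw [mem_filter, mem_powerset]
        refine ⟨erase_subset_erase z hYX, ?_⟩
        intro S hS hne hcl
        by_cases hex : ∃ x ∈ S, r z x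
        · obtain ⟨x, hxS, hzx⟩ := hex
          refine ⟨x, hxS, mem_union_right _ (mem_filter.2 ⟨?_, hzx⟩)⟩
          exact erase_subset_erase z hYX (hS hxS)
        · push Not at hex
          have hzS : z ∉ S := fun h => (mem_erase.1 (hS h)).1 rfl
          obtain ⟨w, hwS, hwZ⟩ := hr S (hS.trans (erase_subset _ _)) hne (by
            intro x hx y hy hxy
            by_cases hyz : y = z
            · subst hyz
              exact absurd (hs _ _ hxy) (hex x hx)
            · exact hcl x hx y (mem_erase.2 ⟨hyz, hy⟩) hxy)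
          exact ⟨w, hwS, mem_union_left _ (mem_erase.2 ⟨fun h => hzS (h ▸ hwS), hwZ⟩)⟩
      have hcard : Z.card = (Z.erase z).card + 1 := (card_erase_add_one hz).symm
      have hpos : (0 : ℝ) ≤ (1 + 2 * u) ^ (Z.erase z).card := by positivity
      have hpow : (1 + 2 * u) ^ Z'.card ≤ (1 + 2 * u) ^ (Z.erase z).card * 2 := by
        calc (1 + 2 * u) ^ Z'.card ≤ (1 + 2 * u) ^ ((Z.erase z).card + Δ) :=
              pow_le_pow_right₀ h1 hZ'c
          _ = (1 + 2 * u) ^ (Z.erase z).card * (1 + 2 * u) ^ Δ := pow_add _ _ _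
          _ ≤ (1 + 2 * u) ^ (Z.erase z).card * 2 := mul_le_mul_of_nonneg_left hΔ hpos
      have hu2 : u * (1 + 2 * u) ^ Z'.card ≤ u * ((1 + 2 * u) ^ (Z.erase z).card * 2) :=
        mul_le_mul_of_nonneg_left hpow hu
      rw [hcard, pow_succ]
      nlinarith [hA, hB, hu2]

theorem con : ConStmt := by
  intro V _ _ r Δ hs hΔ hd Z
  classical
  have hΔ0 : (0 : ℝ) < (Δ : ℝ) := by exact_mod_cast hΔ
  have hu : (0 : ℝ) ≤ 1 / (4 * (Δ : ℝ)) := by positivity
  have h2 : 2 * (1 / (4 * (Δ : ℝ))) = 1 / (2 * (Δ : ℝ)) := by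
    field_simp
    norm_num
  have hp : (1 + 2 * (1 / (4 * (Δ : ℝ)))) ^ Δ ≤ 2 := by
    rw [h2]
    have h3 : 1 + 1 / (2 * (Δ : ℝ)) ≤ Real.exp (1 / (2 * (Δ : ℝ))) := by
      have := Real.add_one_le_exp (1 / (2 * (Δ : ℝ)))
      linarith
    have h4 : (1 + 1 / (2 * (Δ : ℝ))) ^ Δ ≤ Real.exp (1 / (2 * (Δ : ℝ))) ^ Δ :=
      pow_le_pow_left₀ (by positivity) h3 Δ
    have h5 : Real.exp (1 / (2 * (Δ : ℝ))) ^ Δ = Real.exp (1 / 2) := by
      rw [← Real.exp_nat_mul]
      congr 1
      field_simp
    have h6 : Real.exp (1 / 2) ≤ 2 := by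
      have h7 : Real.exp (1 / 2) * Real.exp (1 / 2) = Real.exp 1 := by
        rw [← Real.exp_add]
        norm_num
      have h8 := Real.exp_one_lt_d9
      have h9 := Real.exp_pos (1 / 2)
      nlinarith
    linarith
  have hmain := gen r Δ (1 / (4 * (Δ : ℝ))) hs hu hp (fun x => by
    convert hd x) univ Z (subset_univ _)
  rw [h2] at hmain
  convert hmain using 2
  ext Y
  simp

end Pool.Agent.Helper40.FR
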