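import Pool.Agent.Helper92.FR.GoalsC

/-!
# FR-PTI: the tilt is computed in polynomial time
-/

namespace Pool.Agent.Helper40.FR

open Pool.Agent.Helper92.FR Pool.Agent.Helper81.CC

theorem pti (hS : PtsStmt) (hP : PtpStmt) (hC : PtcStmt) : PtiStmt := by
  intro α _ D P K B T m W hD hPP hK hB hT hm hW hmW
  unfold tilt
  refine PolyTime.find? (f := fun a lam => pass (D a) lam (P a) (K a) (m a)) ?_ ?_
  · refine PolyTime.list_map
      (f := fun a k => cen (nrow (D a)) (cst (D a) (P a) (K a) (B a) k)) (by fun_prop) ?_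
    have hD' : PolyTime (fun z : α × ℕ => D z.1) := PolyTime.comp hD (by fun_prop)
    have hP' : PolyTime (fun z : α × ℕ => P z.1) := PolyTime.comp hPP (by fun_prop)
    have hK' : PolyTime (fun z : α × ℕ => K z.1) := PolyTime.comp hK (by fun_prop)
    have hB' : PolyTime (fun z : α × ℕ => B z.1) := PolyTime.comp hB (by fun_prop)
    have hc := hS (α × ℕ) (fun z => D z.1) (fun z => P z.1) (fun z => K z.1) (fun z => B z.1)
      (fun z => z.2) hD' hP' hK' hB' (by fun_prop)
    have hn : PolyTime (fun z : α × ℕ => nrow (D z.1)) := by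
      unfold nrow
      exact PolyTime.length (PolyTime.fst (PolyTime.snd hD'))
    exact (hC (α × ℕ) (fun z => nrow (D z.1)) (fun z => B z.1)
      (fun z => cst (D z.1) (P z.1) (K z.1) (B z.1) z.2) (fun _ => []) hn hB' hc
      (by fun_prop)).2.2
  · have hD' : PolyTime (fun z : α × List Qn => D z.1) := PolyTime.comp hD (by fun_prop)
    have hP' : PolyTime (fun z : α × List Qn => P z.1) := PolyTime.comp hPP (by fun_prop)
    have hK' : PolyTime (fun z : α × List Qn => K z.1) := PolyTime.comp hK (by fun_prop)
    have hm' : PolyTime (fun z : α × List Qn => m z.1) := PolyTime.comp hm (by fun_prop)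
    have hW' : PolyTime (fun z : α × List Qn => W z.1) := PolyTime.comp hW (by fun_prop)
    exact hP (α × List Qn) (fun z => D z.1) (fun z => z.2) (fun z => P z.1) (fun z => K z.1)
      (fun z => m z.1) (fun z => W z.1) hD' (by fun_prop) hP' hK' hm' hW' (fun z => hmW z.1)

end Pool.Agent.Helper40.FR
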